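import Pool.Agent.K3h88.VR.Stm

/-!
# The alteration argument (project VR, brick ALT)
-/

set_option autoImplicit false
set_option linter.all false

namespace Pool.Agent.K3h73.VR

open Finset Pool.Agent.K3h88.VR

theorem two_add {n : ℕ} (x : E n) : x + x = 0 := by
  funext i
  exact CharTwo.add_self_eq_zero (x i)

theorem add_eq {n : ℕ} {x y : E n} (h : x + y = 0) : x = y := by
  have h1 : x + y + y = y := by rw [h, zero_add]
  rwa [add_assoc, two_add, add_zero] at h1

theorem t_ALT : S_ALT := by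
  classical
  intro n d k A hA0 hV
  obtain ⟨𝒯, h𝒯⟩ : ∃ 𝒯 : Finset (Finset (E n)), ∀ T, T ∈ 𝒯 ↔
      (∃ x y : E n, x ≠ 0 ∧ y ≠ 0 ∧ x ≠ y ∧ T = {x, y, x + y}) ∧ T ⊆ A :=
    ⟨univ.filter (fun T => (∃ x y : E n, x ≠ 0 ∧ y ≠ 0 ∧ x ≠ y ∧ T = {x, y, x + y}) ∧ T ⊆ A),
      fun T => by rw [mem_filter]; exact ⟨fun h => h.2, fun h => ⟨mem_univ _, h⟩⟩⟩
  obtain ⟨F, hF, hmax⟩ := Finset.exists_max_image (𝒯.powerset.filter fun S => PD S)
    (fun S => S.card) ⟨∅, mem_filter.2 ⟨empty_mem_powerset _, fun T hT => absurd hT (notMem_empty T)⟩⟩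
  rw [mem_filter, mem_powerset] at hF
  obtain ⟨hF1, hF2⟩ := hF
  refine ⟨A.filter fun x => ∀ T ∈ F, x ∉ T, ?_, ?_⟩
  · intro x hx y hy hxy
    rw [mem_filter] at hx hy hxy
    have hx0 : x ≠ 0 := fun h => hA0 (h ▸ hx.1)
    have hy0 : y ≠ 0 := fun h => hA0 (h ▸ hy.1)
    have hne : x ≠ y := by
      rintro rfl
      rw [two_add] at hxy
      exact hA0 hxy.1
    have hT0 : ({x, y, x + y} : Finset (E n)) ∈ 𝒯 := by
      rw [h𝒯]
      refine ⟨⟨x, y, hx0, hy0, hne, rfl⟩, ?_⟩
      intro z hz
      simp only [mem_insert, mem_singleton] at hz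
      rcases hz with rfl | rfl | rfl
      · exact hx.1
      · exact hy.1
      · exact hxy.1
    have hdis : ∀ T ∈ F, Disjoint ({x, y, x + y} : Finset (E n)) T := by
      intro T hT
      rw [Finset.disjoint_left]
      intro z hz
      simp only [mem_insert, mem_singleton] at hz
      rcases hz with rfl | rfl | rfl
      · exact hx.2 T hT
      · exact hy.2 T hT
      · exact hxy.2 T hT
    have hnot : ({x, y, x + y} : Finset (E n)) ∉ F := fun h =>
      hx.2 _ h (mem_insert_self _ _)
    have h1 := hmax (insert {x, y, x + y} F) (by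
      rw [mem_filter, mem_powerset]
      refine ⟨insert_subset hT0 hF1, ?_⟩
      intro T hT T' hT' hTT
      rw [mem_insert] at hT hT'
      rcases hT with rfl | hT
      · rcases hT' with rfl | hT'
        · exact absurd rfl hTT
        · exact hdis T' hT'
      · rcases hT' with rfl | hT'
        · exact (hdis T hT).symm
        · exact hF2 T hT T' hT' hTT)
    rw [card_insert_of_notMem hnot] at h1
    omega
  · intro V hVd
    obtain ⟨hD, hS⟩ := hV V hVd
    obtain ⟨G, hG⟩ : ∃ G : Finset (Finset (E n)), G = F.filter fun T => ∃ x ∈ T, x ∈ V :=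
      ⟨_, rfl⟩
    have hGtri : G ⊆ tri V := by
      intro T hT
      rw [hG, mem_filter] at hT
      obtain ⟨hTF, z, hz, hzV⟩ := hT
      obtain ⟨⟨x, y, hx0, hy0, hne, rfl⟩, -⟩ := (h𝒯 T).1 (hF1 hTF)
      have hxy0 : x + y ≠ 0 := fun h => hne (add_eq h)
      unfold tri
      rw [mem_filter]
      refine ⟨mem_univ _, ?_⟩
      simp only [mem_insert, mem_singleton] at hz
      rcases hz with rfl | rfl | rfl
      · exact ⟨z, hzV, y, hx0, hy0, hne, rfl⟩
      · refine ⟨z, hzV, x, hy0, hx0, hne.symm, ?_⟩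
        ext t
        simp only [mem_insert, mem_singleton]
        rw [add_comm z x]
        tauto
      · refine ⟨x + y, hzV, x, hxy0, hx0, ?_, ?_⟩
        · intro h
          exact hy0 (by simpa using h)
        · have e : x + y + x = y := by
            rw [add_comm x y, add_assoc, two_add, add_zero]
          rw [e]
          ext t
          simp only [mem_insert, mem_singleton]
          tauto
    have hGF : G ⊆ F := by
      rw [hG]
      exact filter_subset _ _
    have hGk : G.card ≤ k := by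
      by_contra hlt
      push Not at hlt
      obtain ⟨S, hSG, hSc⟩ := Finset.exists_subset_card_eq (show k + 1 ≤ G.card by omega)
      refine hS ⟨S, hSG.trans hGtri, hSc, ?_, ?_⟩
      · intro T hT T' hT' hne
        exact hF2 T (hGF (hSG hT)) T' (hGF (hSG hT')) hne
      · intro T hT
        exact ((h𝒯 T).1 (hF1 (hGF (hSG hT)))).2
    have hcard : (G.biUnion id).card ≤ 3 * k := by
      have h1 : (G.biUnion id).card ≤ G.card * 3 := by
        refine card_biUnion_le_card_mul _ _ _ fun T hT => ?_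
        obtain ⟨⟨x, y, hx0, hy0, hne, rfl⟩, -⟩ := (h𝒯 T).1 (hF1 (hGF hT))
        exact card_le_three
      omega
    obtain ⟨x, hxV, hxA, hxD⟩ := hD _ hcard
    refine ⟨x, hxV, ?_⟩
    rw [mem_filter]
    refine ⟨hxA, fun T hT hxT => hxD ?_⟩
    rw [mem_biUnion]
    refine ⟨T, ?_, hxT⟩
    rw [hG, mem_filter]
    exact ⟨hT, x, hxT, hxV⟩

end Pool.Agent.K3h73.VR
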